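import Pool.Agent.W2helper23.SG.Stm

/-!
Piece SG8B of project SG (helper23): the quadratic step for a large extension.
-/

set_option autoImplicit false
set_option linter.unusedSectionVars false

namespace Pool.Agent.W2helper49.SG

open NumberField NumberField.ComplexEmbedding Pool.Agent.R389 Pool.Agent.K4H74.ST
open Pool.Agent.H302R2 Pool.Agent.H302R3 Pool.Agent.H541R3.ART Pool.Agent.W446.AS
open Pool.Agent.W2helper23.SG

open Classical in
theorem SG8B (hSG6 : P_SG6) (hSG7 : P_SG7) (hSG8A : P_SG8A) : P_SG8B := by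
  intro M _ B hC hL F E N _ _ _ _ _ _ _ _ _ _ _ s t hQ G G' hG hG' j w β l hj hw hl hβ
  have hgal : IsGalois E N := IsGalois.tower_top_of_isGalois F E N
  have hs : Sg s := hQ.1
  have ht : s t = -1 := hQ.2.1
  have hker := hQ.2.2
  have hn : (-1 : ℂˣ) ≠ 1 := neg_one_ne
  -- `w ≠ 0`
  have hw0 : w ≠ 0 := by
    rintro rfl
    rw [mul_zero] at hw
    have h0 : β = 0 := by
      apply (algebraMap E N).injective
      rw [← hw, map_zero]
    have h1 := (hβ l hl).1 rfl
    rw [h0, map_zero] at h1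
    simp at h1
  have hnw : -w ≠ w := fun h => hw0 (self_eq_neg.mp h.symm)
  -- automorphisms over `E`
  have hfix : ∀ a : N ≃ₐ[F] N, s a = 1 → a (w * w) = w * w := by
    intro a ha
    obtain ⟨h, rfl⟩ := (hker a).1 ha
    rw [hw]
    exact h.commutes β
  have hm : ∀ a b : N ≃ₐ[F] N, s a = 1 → s b = 1 → sgn w (a * b) = sgn w a * sgn w b :=
    fun a b ha hb => sgn_mul (pm_of_sq (hfix a ha)) (pm_of_sq (hfix b hb))
  have hm1 : ∀ a : N ≃ₐ[F] N, s a = 1 → sgn w a = 1 ∨ sgn w a = -1 := fun a _ => sgn_sg w a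
  -- `t` moves `E`
  have htE : ∀ φ : N →+* ℂ, φ.comp (algebraMap E N) ≠
      (φ.comp (t : N →+* N)).comp (algebraMap E N) := by
    intro φ h
    have h1 : ∀ y : E, t (algebraMap E N y) = algebraMap E N y := by
      intro y
      apply φ.injective
      exact (RingHom.congr_fun h y).symm
    have h2 : s t = 1 := by
      rw [hker]
      refine ⟨AlgEquiv.ofRingEquiv (f := (t : N ≃+* N)) (fun r => h1 r), ?_⟩
      ext x
      rfl
    rw [ht] at h2
    exact hn h2
  -- the sign of `w`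
  have hreal : ∀ (φ : N →+* ℂ) (x : N ≃ₐ[F] N), IsConj φ x → s x = 1 →
      IsReal (φ.comp (algebraMap E N)) := by
    intro φ x hx hsx
    obtain ⟨h, rfl⟩ := (hker x).1 hsx
    ext y
    change star (φ (algebraMap E N y)) = φ (algebraMap E N y)
    rw [← hx.eq]
    congr 1
    exact h.commutes y
  have hww : ∀ φ : N →+* ℂ, φ (w * w) = (φ.comp (algebraMap E N)) β := by
    intro φ
    rw [hw]
    rfl
  have him : ∀ κ : E →+* ℂ, IsReal κ → (κ β).im = 0 := by
    intro κ hκ
    rw [← Complex.conj_eq_iff_im]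
    exact RingHom.congr_fun hκ β
  have hmF : ∀ (φ : N →+* ℂ) (x : N ≃ₐ[F] N), IsConj φ x → s x = 1 →
      (φ.comp (algebraMap E N) = l → sgn w x = -1) ∧
      (φ.comp (algebraMap E N) ≠ l → sgn w x = 1) := by
    intro φ x hx hsx
    have hr := hreal φ x hx hsx
    constructor
    · intro h
      rw [sgn_eq_neg, sqrt_neg hx (by rw [hww]; exact him _ hr)
        (by rw [hww]; exact (hβ _ hr).1 h)]
      exact hnw
    · intro h
      rw [sgn_eq_one]
      exact sqrt_pos hx (by rw [hww]; exact him _ hr) (by rw [hww]; exact (hβ _ hr).2 h)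
  have hst : ∀ x : N ≃ₐ[F] N, s (t⁻¹ * x * t) = s x := by
    intro x
    rw [map_mul, map_mul, map_inv, mul_comm (s t)⁻¹, mul_assoc, inv_mul_cancel, mul_one]
  have hX : ∀ x ∈ CC F N, s x = 1 → ¬ (sgn w x = -1 ∧ sgn w (t⁻¹ * x * t) = -1) := by
    rintro x ⟨φ, hx⟩ hsx ⟨h1, h2⟩
    have h3 : φ.comp (algebraMap E N) = l := by
      by_contra h
      rw [(hmF φ x hx hsx).2 h] at h1
      exact hn h1.symm
    have h4 : (φ.comp (t : N →+* N)).comp (algebraMap E N) = l := by
      by_contra h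
      rw [(hmF _ _ (hx.comp t) (by rw [hst, hsx])).2 h] at h2
      exact hn h2.symm
    exact htE φ (h3.trans h4.symm)
  -- the conjugation over `l`
  obtain ⟨φl, hφl⟩ : ∃ φl : N →+* ℂ, φl.comp (algebraMap E N) = l :=
    ⟨ComplexEmbedding.lift N l, ComplexEmbedding.lift_comp_algebraMap N l⟩
  obtain ⟨cE, hcE⟩ := exists_conj (K := E) (φ := φl) (by rw [hφl]; exact hl)
  obtain ⟨c, hcc⟩ : ∃ c : N ≃ₐ[F] N, cE.restrictScalars F = c := ⟨_, rfl⟩
  have hc : IsConj φl c := by
    rw [← hcc]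
    exact hcE
  have hsc : s c = 1 := (hker c).2 ⟨cE, hcc⟩
  set η := etaHom hs ht hm with hη
  have hηpos : ∀ x, s x = 1 → η x = sgn w x * sgn w (t⁻¹ * x * t) := by
    intro x hx
    rw [hη, etaHom_apply, e1_pos hx, e2_pos hx]
  have hηc : η c = -1 := by
    rw [hηpos c hsc, (hmF φl c hc hsc).1 hφl,
      (hmF _ _ (hc.comp t) (by rw [hst, hsc])).2 (fun h => htE φl (hφl.trans h.symm)), mul_one]
  have hu : (s * η) c = -1 := by
    rw [MonoidHom.mul_apply, hsc, hηc, one_mul]
  have h7 := hSG7 M B hC hL F N j hj s hs t ht (sgn w) hm hm1 hX c hu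
  -- the value of the induced character
  obtain ⟨ι, hι1, hι2⟩ := hSG6 F E N s t hQ
  have hgw : ∀ g : N ≃ₐ[E] N, g (w * w) = w * w := by
    intro g
    rw [hw]
    exact g.commutes β
  have hind : indChar F E N (lc (sgnHom w hgw)) =
      ind s.ker (fun h => ((sgn w (h : N ≃ₐ[F] N) : ℂˣ) : ℂ)) := by
    rw [hι2]
    congr 1
    funext h
    have h1 : (ι h) w = (h : N ≃ₐ[F] N) w := by
      rw [← hι1 h]
      rfl
    have h2 : sgn w (ι h) = sgn w (h : N ≃ₐ[F] N) := by
      unfold sgn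
      rw [h1]
    change ((sgn w (ι h) : ℂˣ) : ℂ) = _
    rw [h2]
  have hNl : ∀ κ : E →+* ℂ, Neg (sgnHom w hgw) κ ↔ κ = l := by
    intro κ
    constructor
    · rintro ⟨φ, x, hx, hφ, h1⟩
      have hr : IsReal κ := by
        rw [← hφ]
        exact hx.isReal_comp
      by_contra hne
      have h2 : x w = w := sqrt_pos hx (by rw [hww, hφ]; exact him _ hr)
        (by rw [hww, hφ]; exact (hβ _ hr).2 hne)
      have h3 : sgn w x = 1 := sgn_eq_one.2 h2
      change sgn w x = -1 at h1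
      rw [h3] at h1
      exact hn h1.symm
    · rintro rfl
      refine ⟨φl, cE, hcE, hφl, ?_⟩
      change sgn w cE = -1
      rw [sgn_eq_neg, sqrt_neg hcE (by rw [hww, hφl]; exact him _ hl)
        (by rw [hww, hφl]; exact (hβ _ hl).1 rfl)]
      exact hnw
  have hv1 : B.val F N (ind s.ker (fun h => ((sgn w (h : N ≃ₐ[F] N) : ℂˣ) : ℂ))) =
      b1 B E * (G' l)⁻¹ := by
    rw [← hind, B.val_ind F E N _ (IsChar.lc _), hG' N (sgnHom w hgw) (sgnHom_sg w hgw)]
    congr 1
    simp only [hNl]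
    rw [Finset.prod_ite_eq' Finset.univ l (fun κ => (G' κ)⁻¹), if_pos (Finset.mem_univ _)]
  have hchar : IsChar (ind s.ker (fun h => ((sgn w (h : N ≃ₐ[F] N) : ℂˣ) : ℂ))) := by
    have h1 := IsChar.ind_lin s.ker ((sgnHom w hgw).comp ι.toMonoidHom)
    have h2 : (fun h : s.ker => ((sgn w (h : N ≃ₐ[F] N) : ℂˣ) : ℂ)) =
        (fun h : s.ker => ((((sgnHom w hgw).comp ι.toMonoidHom) h : ℂˣ) : ℂ)) := by
      funext h
      have h1 : (ι h) w = (h : N ≃ₐ[F] N) w := by
        rw [← hι1 h]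
        rfl
      have h2 : sgn w (ι h) = sgn w (h : N ≃ₐ[F] N) := by
        unfold sgn
        rw [h1]
      change _ = ((sgn w (ι h) : ℂˣ) : ℂ)
      rw [h2]
    rw [h2]
    exact h1
  have hv2 := val_eq_of_sub B hchar ((IsChar.lc 1).add (IsChar.lc (s * η))) h7
  rw [hv1, B.val_add F N _ _ (IsChar.lc 1) (IsChar.lc (s * η))] at hv2
  -- the trivial character
  have hone : B.val F N (lc 1) = b1 B F := by
    rw [hG N 1 (fun g => Or.inl rfl), Finset.prod_eq_one, mul_one]
    intro κ _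
    rw [if_neg]
    rintro ⟨φ, x, -, -, h⟩
    rw [MonoidHom.one_apply] at h
    exact hn h.symm
  -- the signs of `s * η`
  have hlF : φl.comp (algebraMap F N) = l.comp (algebraMap F E) := by
    rw [← hφl, RingHom.comp_assoc, ← IsScalarTower.algebraMap_eq F E N]
  have hηsg : Sg η := etaHom_sg hs ht hm hm1
  have hexcl : ¬ Neg s (l.comp (algebraMap F E)) := by
    rintro ⟨φ, x, hx, hφ, h⟩
    have h1 := conj_same s hx hc (hφ.trans hlF.symm)
    rw [h, hsc] at h1
    exact hn h1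
  have hNs : ∀ κ : F →+* ℂ, Neg (s * η) κ ↔ (Neg s κ ∨ κ = l.comp (algebraMap F E)) := by
    intro κ
    constructor
    · rintro ⟨φ, x, hx, hφ, h⟩
      rcases hs x with hsx | hsx
      · right
        rw [MonoidHom.mul_apply, hsx, one_mul, hηpos x hsx] at h
        have h1 : φ.comp (algebraMap E N) = l ∨
            (φ.comp (t : N →+* N)).comp (algebraMap E N) = l := by
          by_contra hcon
          rw [not_or] at hcon
          rw [(hmF φ x hx hsx).2 hcon.1,
            (hmF _ _ (hx.comp t) (by rw [hst, hsx])).2 hcon.2, one_mul] at h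
          exact hn h.symm
        rcases h1 with h1 | h1
        · rw [← hφ, ← h1, RingHom.comp_assoc, ← IsScalarTower.algebraMap_eq F E N]
        · rw [← hφ, ← h1, RingHom.comp_assoc, ← IsScalarTower.algebraMap_eq F E N]
          ext y
          change φ (algebraMap F N y) = φ (t (algebraMap F N y))
          rw [t.commutes]
      · left
        exact ⟨φ, x, hx, hφ, hsx⟩
    · rintro (⟨φ, x, hx, hφ, h⟩ | rfl)
      · refine ⟨φ, x, hx, hφ, ?_⟩
        have h1 := e1_mul hs ht hm x x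
        rw [if_neg (by rw [h]; exact hn), isConj_sq hx, e1_pos (map_one s)] at h1
        have h2 : sgn w (1 : N ≃ₐ[F] N) = 1 := sgn_eq_one.2 rfl
        rw [h2] at h1
        rw [MonoidHom.mul_apply, h, hη, etaHom_apply, mul_comm (e1 s t (sgn w) x), ← h1, mul_one]
      · exact ⟨φl, c, hc, hlF, hu⟩
  have hprod : (∏ κ : F →+* ℂ, if Neg (s * η) κ then (G κ)⁻¹ else 1) =
      (∏ κ : F →+* ℂ, if Neg s κ then (G κ)⁻¹ else 1) * (G (l.comp (algebraMap F E)))⁻¹ := by
    have h1 : (G (l.comp (algebraMap F E)))⁻¹ = ∏ κ : F →+* ℂ,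
        if κ = l.comp (algebraMap F E) then (G κ)⁻¹ else 1 := by
      rw [Finset.prod_ite_eq' Finset.univ (l.comp (algebraMap F E)) (fun κ => (G κ)⁻¹),
        if_pos (Finset.mem_univ _)]
    rw [h1, ← Finset.prod_mul_distrib]
    refine Finset.prod_congr rfl fun κ _ => ?_
    by_cases ha : Neg s κ
    · have hb : κ ≠ l.comp (algebraMap F E) := by
        rintro rfl
        exact hexcl ha
      rw [if_pos ((hNs κ).2 (Or.inl ha)), if_pos ha, if_neg hb, mul_one]
    · by_cases hb : κ = l.comp (algebraMap F E)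
      · rw [if_pos ((hNs κ).2 (Or.inr hb)), if_neg ha, if_pos hb, one_mul]
      · rw [if_neg (fun h => ((hNs κ).1 h).elim ha hb), if_neg ha, if_neg hb, one_mul]
  have hv3 := hG N (s * η) (hs.mul hηsg)
  rw [hprod] at hv3
  have h8 := hSG8A M B F E N s t hQ G hG
  rw [hone, hv3, h8] at hv2
  have h9 : (G' l)⁻¹ = (G (l.comp (algebraMap F E)))⁻¹ := by
    have h10 : (b1 B F ^ 2 * ∏ κ : F →+* ℂ, if Neg s κ then (G κ)⁻¹ else 1) * (G' l)⁻¹ =
        (b1 B F ^ 2 * ∏ κ : F →+* ℂ, if Neg s κ then (G κ)⁻¹ else 1) *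
          (G (l.comp (algebraMap F E)))⁻¹ := by
      rw [hv2, sq]
      simp only [mul_assoc]
    exact mul_left_cancel h10
  exact inv_injective h9

end Pool.Agent.W2helper49.SG
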