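import Pool.Agent.W2helper37.SG.Stm

/-!
# Project SG, piece TEW: the weights for a tensor product
-/

set_option autoImplicit false
set_option linter.unusedSectionVars false
set_option linter.unusedSimpArgs false
set_option backward.isDefEq.respectTransparency false
set_option backward.defeqAttrib.useBackward true

open CategoryTheory Limits MonoidalCategory
open Pool.Agent.Y112.SR Pool.Agent.Y112.KD Pool.Agent.Y112.SC
open Pool.Agent.W2helper37.SG

namespace Pool.Agent.W2helper49.SG

universe v u w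

open Functor.LaxMonoidal Functor.OplaxMonoidal
open scoped TensorProduct

section

variable {C : Type u} [Category.{v} C] [Preadditive C] [Linear ℚ C] [MonoidalCategory C]
  [MonoidalPreadditive C] [MonoidalLinear ℚ C] [SymmetricCategory C] [RightRigidCategory C]
  {K : Type w} [Field K] (R : SuperRealisation C K) {X Y : C}

/-- the image of a pure tensor in the realisation of the tensor product -/
noncomputable def mt (x : R.H.obj X) (y : R.H.obj Y) : R.H.obj (X ⊗ Y) :=
  (μ R.H X Y).hom (x ⊗ₜ[K] y)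

theorem bx_mt (a : R.H.obj X ⟶ R.H.obj X) (b : R.H.obj Y ⟶ R.H.obj Y) (x : R.H.obj X)
    (y : R.H.obj Y) : (bx R a b).hom (mt R x y) = mt R (a.hom x) (b.hom y) := by
  have h : μ R.H X Y ≫ bx R a b = (a ⊗ₘ b) ≫ μ R.H X Y := by
    rw [bx, Functor.Monoidal.μ_δ_assoc]
  have h2 := congrArg (fun f => f.hom (x ⊗ₜ[K] y)) h
  exact h2

theorem mt_add_left (x x' : R.H.obj X) (y : R.H.obj Y) :
    mt R (x + x') y = mt R x y + mt R x' y := by
  unfold mt
  rw [TensorProduct.add_tmul, map_add]

theorem mt_add_right (x : R.H.obj X) (y y' : R.H.obj Y) :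
    mt R x (y + y') = mt R x y + mt R x y' := by
  unfold mt
  rw [TensorProduct.tmul_add, map_add]

theorem mt_smul_left (c : K) (x : R.H.obj X) (y : R.H.obj Y) :
    mt R (c • x) y = c • mt R x y := by
  unfold mt
  rw [← TensorProduct.smul_tmul', map_smul]

theorem mt_smul_right (c : K) (x : R.H.obj X) (y : R.H.obj Y) :
    mt R x (c • y) = c • mt R x y := by
  unfold mt
  rw [TensorProduct.tmul_smul, map_smul]

theorem tenA_mt {ι : Type} [Fintype ι] [DecidableEq ι] (o : ι → Bool)
    (A : ι → ι → Module.End K (R.H.obj X)) (B : ι → ι → Module.End K (R.H.obj Y)) (i : ι)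
    (x : R.H.obj X) (y : R.H.obj Y) :
    tenA R o A B i i (mt R x y) = mt R (A i i x) y + mt R x (B i i y) := by
  unfold tenA
  rw [if_pos rfl, ModuleCat.hom_add, LinearMap.add_apply, bx_mt, bx_mt]
  rfl

theorem sum_mt {ι : Type} [Fintype ι] [DecidableEq ι] (o : ι → Bool)
    (A : ι → ι → Module.End K (R.H.obj X)) (B : ι → ι → Module.End K (R.H.obj Y))
    (S : Finset ι) (x : R.H.obj X) (y : R.H.obj Y) :
    (∑ i ∈ S, tenA R o A B i i) (mt R x y) =
      mt R ((∑ i ∈ S, A i i) x) y + mt R x ((∑ i ∈ S, B i i) y) := by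
  classical
  induction S using Finset.induction_on with
  | empty =>
    simp only [Finset.sum_empty, LinearMap.zero_apply]
    have h1 := mt_smul_left R (0 : K) (0 : R.H.obj X) y
    have h2 := mt_smul_right R (0 : K) x (0 : R.H.obj Y)
    rw [zero_smul, zero_smul] at h1 h2
    rw [h1, h2, add_zero]
  | insert i S hi ih =>
    rw [Finset.sum_insert hi, Finset.sum_insert hi, Finset.sum_insert hi, LinearMap.add_apply,
      LinearMap.add_apply, LinearMap.add_apply, ih, tenA_mt, mt_add_left, mt_add_right]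
    abel

/-- **TEW** -/
theorem p_tew : P_TEW.{u, v, w} := by
  intro C _ _ _ _ _ _ _ _ K _ R X Y ι _ _ o A B hA hB
  obtain ⟨⟨κ, _, u, n, h1, h2⟩, m, h3⟩ := hA
  obtain ⟨⟨κ', _, u', n', h1', h2'⟩, m', h3'⟩ := hB
  classical
  let e : (R.H.obj X ⊗[K] R.H.obj Y) ≃ₗ[K] R.H.obj (X ⊗ Y) :=
    (Functor.Monoidal.μIso R.H X Y).toLinearEquiv
  let bb : Module.Basis (κ × κ') K (R.H.obj (X ⊗ Y)) := (u.tensorProduct u').map e
  have hbb : ∀ p, bb p = mt R (u p.1) (u' p.2) := by
    intro p
    show e ((u.tensorProduct u') p) = _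
    rw [Module.Basis.tensorProduct_apply']
    rfl
  refine ⟨⟨κ × κ', inferInstance, bb, fun p => n p.1 + n' p.2, fun p => ?_, fun p => ?_⟩,
    m + m', ?_⟩
  · rw [hbb, sum_mt, h1, h1', mt_smul_left, mt_smul_right, ← add_smul]
    congr 1
    push_cast
    ring
  · rw [hbb, ← bx_par, bx_mt, h2, h2', mt_smul_left, mt_smul_right, smul_smul,
      zpow_add₀ (by norm_num)]
  · apply bb.ext
    intro p
    rw [hbb, LinearMap.sub_apply, sum_mt, sum_mt]
    have e1 := congrArg (fun f => f (u p.1)) h3
    have e2 := congrArg (fun f => f (u' p.2)) h3'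
    simp only [LinearMap.sub_apply, LinearMap.smul_apply, Module.End.one_apply] at e1 e2 ⊢
    have e1' := sub_eq_iff_eq_add.1 e1
    have e2' := sub_eq_iff_eq_add.1 e2
    rw [e1', e2', mt_add_left, mt_add_right, mt_smul_left, mt_smul_right]
    push_cast
    rw [add_smul]
    abel

end

end Pool.Agent.W2helper49.SG
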