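import Pool.Agent.W2helper37.SG.Stm3

/-!
# PIECE SUQ of project SG, part 2: the relations of `osp` on a stable summand
-/

set_option autoImplicit false
set_option linter.unusedSectionVars false
set_option linter.unusedSimpArgs false
set_option backward.isDefEq.respectTransparency false
set_option backward.defeqAttrib.useBackward true

open Pool.Agent.W2helper37.SG

namespace Pool.Agent.W2helper49.SG

universe v u w

/-- SUQ -/
theorem p_suq : P_SUQ.{w} := by
  intro K _ ι _ _ o σ γ T P _ _ _ _ A i r h hir hc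
  have hri : ∀ x, r (i x) = x := fun x => LinearMap.congr_fun hir x
  have key : ∀ k i' l j, (r ∘ₗ A k i' ∘ₗ i : Module.End K P) * (r ∘ₗ A l j ∘ₗ i) =
      r ∘ₗ (A k i' * A l j) ∘ₗ i := by
    intro k i' l j
    ext x
    have h1 := LinearMap.congr_fun (hc l j).eq (i x)
    simp only [Module.End.mul_apply, LinearMap.comp_apply, hri] at h1 ⊢
    rw [h1]
  constructor
  · intro k i'
    have h2 := congrArg (fun f : Module.End K T => (r ∘ₗ f ∘ₗ i : Module.End K P)) (h.anti k i')
    simp only [tauA, LinearMap.smul_comp, LinearMap.comp_smul, LinearMap.neg_comp,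
      LinearMap.comp_neg] at h2 ⊢
    exact h2
  · intro k i' l j
    have h2 := congrArg (fun f : Module.End K T => (r ∘ₗ f ∘ₗ i : Module.End K P))
      (h.rel k i' l j)
    have hite : ∀ (p : Prop) [Decidable p] (f : Module.End K T),
        (r ∘ₗ (if p then f else 0) ∘ₗ i : Module.End K P) = if p then r ∘ₗ f ∘ₗ i else 0 := by
      intro p _ f
      split_ifs <;> simp
    have hsub : ∀ f g : Module.End K T, (r ∘ₗ (f - g) ∘ₗ i : Module.End K P) =
        r ∘ₗ f ∘ₗ i - r ∘ₗ g ∘ₗ i := by
      intro f g; simp [LinearMap.sub_comp, LinearMap.comp_sub]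
    have hadd : ∀ f g : Module.End K T, (r ∘ₗ (f + g) ∘ₗ i : Module.End K P) =
        r ∘ₗ f ∘ₗ i + r ∘ₗ g ∘ₗ i := by
      intro f g; simp [LinearMap.add_comp, LinearMap.comp_add]
    have hsm : ∀ (c : K) (f : Module.End K T), (r ∘ₗ (c • f) ∘ₗ i : Module.End K P) =
        c • (r ∘ₗ f ∘ₗ i) := by
      intro c f; simp [LinearMap.smul_comp, LinearMap.comp_smul]
    simp only [hsub, hadd, hite, hsm, ← key] at h2
    exact h2

end Pool.Agent.W2helper49.SG
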