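import Pool.Agent.W2helper37.SG.Stm3
import Pool.Agent.W2helper47.SG.SUM

/-!
# PIECE SUR of project SG, part 2: the action on a stable summand, only `Re` and `ParRel`
-/

set_option autoImplicit false
set_option linter.unusedSectionVars false
set_option linter.unusedSimpArgs false
set_option backward.isDefEq.respectTransparency false
set_option backward.defeqAttrib.useBackward true

open CategoryTheory Limits MonoidalCategory
open Pool.Agent.Y112.SR Pool.Agent.Y112.KD Pool.Agent.Y112.SC
open Pool.Agent.W2helper37.SG

namespace Pool.Agent.W2helper49.SG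

universe v u w

open Functor.LaxMonoidal Functor.OplaxMonoidal
open Pool.Agent.W2helper47.SG

/-- SUR -/
theorem p_sur : P_SUR.{v, u, w} := by
  intro C _ _ _ _ _ _ _ _ K _ R M T P ι _ _ o e he a A hre hpar i r hir hcomm
  have hp : R.H.map (M ◁ (r ≫ i)) = bx R (𝟙 _) (R.H.map (r ≫ i)) := by
    rw [← CategoryTheory.Functor.map_id, bx_map, id_tensorHom]
  have h1 : ∀ k l, Commute (R.H.map (r ≫ i)).hom (A k l) := by
    intro k l
    have h2 : (∑ i', ∑ k, bx R (e i' k) (R.H.map (r ≫ i) ≫ ModuleCat.ofHom (A k i'))) =
        ∑ i', ∑ k, bx R (e i' k) (ModuleCat.ofHom (A k i') ≫ R.H.map (r ≫ i)) := by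
      have h3 := hcomm
      rw [Functor.map_comp, Functor.map_comp, hre, hp] at h3
      simpa only [Preadditive.comp_sum, Preadditive.sum_comp, bx_comp, Category.id_comp,
        Category.comp_id] using h3
    have h4 := re_unique R e o he (fun k i' => R.H.map (r ≫ i) ≫ ModuleCat.ofHom (A k i'))
      (fun k i' => ModuleCat.ofHom (A k i') ≫ R.H.map (r ≫ i)) h2 k l
    have h5 := congrArg ModuleCat.Hom.hom h4
    simp only [ModuleCat.hom_comp, ModuleCat.hom_ofHom] at h5
    exact h5.symm
  refine ⟨h1, ?_, ?_⟩
  · unfold Re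
    rw [Functor.map_comp, Functor.map_comp, hre]
    simp only [Preadditive.comp_sum, Preadditive.sum_comp, re_whisker]
    rfl
  · refine parRel_sum o A (R.H.map i).hom (R.H.map r).hom (R.par T).hom (R.par P).hom ?_ ?_ hpar
    · intro x
      have h2 := LinearMap.congr_fun (congrArg ModuleCat.Hom.hom (R.par_natural i)) x
      exact h2
    · intro x
      have h2 := LinearMap.congr_fun (congrArg ModuleCat.Hom.hom (R.par_natural r)) x
      exact h2

end Pool.Agent.W2helper49.SG
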