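import Pool.Agent.W2helper37.SG.Stm3

/-!
# PIECE WTO of project SG, part 2
-/

set_option autoImplicit false
set_option linter.unusedSectionVars false
set_option linter.unusedSimpArgs false
set_option backward.isDefEq.respectTransparency false
set_option backward.defeqAttrib.useBackward true

open CategoryTheory Limits MonoidalCategory
open Pool.Agent.Y112.SR
open Pool.Agent.W2helper37.SG

namespace Pool.Agent.W2helper49.SG

universe v u w

/-- WTO -/
theorem p_wto : P_WTO.{w} := by
  intro K _ _ ι _ _ o σ γ N hF ⟨a, ha⟩ T P _ _ _ _ A s i r κ _ u m hA hir hc hu hs hodd x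
  classical
  have hri : ∀ x, r (i x) = x := fun x => LinearMap.congr_fun hir x
  have hcx : ∀ k l t, i (r (A k l t)) = A k l (i (r t)) := fun k l t =>
    LinearMap.congr_fun (hc k l).eq t
  -- products
  have hprod : ∀ b : ι, o b = true → ∀ x, r (A b b (i x)) = r (A a a (i x)) := by
    intro b hb x
    have h1 := hA.rel a b b a
    have e1 : ¬ a = σ b := by
      intro h
      have := hF.par b
      rw [← h, ha, hb] at this
      exact absurd this (by simp)
    have e2 : ¬ b = σ a := by
      intro h
      have := hF.par a
      rw [← h, ha, hb] at this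
      exact absurd this (by simp)
    rw [if_pos rfl, if_pos rfl, if_neg e1, if_neg e2] at h1
    have h2 := LinearMap.congr_fun h1 (i x)
    have h3 := congrArg r h2
    have z1 : r (A a b (A b a (i x))) = 0 := by
      have q1 := LinearMap.congr_fun (hodd b a (by rw [ha, hb]; simp)) x
      have q2 : r (A b a (i x)) = 0 := q1
      have q3 : A b a (i x) = A b a (i (r (i x))) := by rw [hri]
      rw [q3, ← hcx, q2]
      simp
    have z2 : r (A b a (A a b (i x))) = 0 := by
      have q1 := LinearMap.congr_fun (hodd a b (by rw [ha, hb]; simp)) x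
      have q2 : r (A a b (i x)) = 0 := q1
      have q3 : A a b (i x) = A a b (i (r (i x))) := by rw [hri]
      rw [q3, ← hcx, q2]
      simp
    simp only [ha, hb, cc, sg, LinearMap.sub_apply, LinearMap.add_apply, LinearMap.smul_apply,
      Module.End.mul_apply, map_sub, map_add, map_smul, z1, z2, smul_zero, sub_zero,
      LinearMap.zero_apply, map_zero, add_zero] at h3
    simp at h3
    exact (sub_eq_zero.1 h3.symm)
  have hzero : ∀ b : ι, o b = true → ∀ x, r (A b b (i x)) = 0 := by
    intro b hb x
    have h1 := hprod b hb x
    have h2 := hprod (σ b) (by rw [hF.par, hb]) x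
    have h3 := LinearMap.congr_fun (hA.anti b b) (i x)
    have h4 := hF.sym b
    rw [hb] at h4
    have hg := hF.ne b
    have h5 : (cc K (o b) (o b) * γ b * (γ (σ b))⁻¹) = 1 := by
      rw [h4, hb]
      simp [cc, sg]
      field_simp
    have h6 : A (σ b) (σ b) (i x) = -A b b (i x) := by
      have : tauA o σ γ A b b (i x) = (cc K (o b) (o b) * γ b * (γ (σ b))⁻¹) • A (σ b) (σ b) (i x) :=
        rfl
      rw [this, h5, one_smul] at h3
      exact h3
    rw [h6, map_neg] at h2
    have h7 : (2 : K) • r (A b b (i x)) = 0 := by
      rw [two_smul]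
      nth_rewrite 2 [h1]
      rw [← h2]
      simp
    exact (smul_eq_zero.1 h7).resolve_left two_ne_zero
  -- the torus element
  set D : Module.End K T := ∑ j, (N j : K) • A j j with hD
  have hrD : ∀ x, r (D (i x)) = 0 := by
    intro x
    rw [hD, LinearMap.sum_apply, map_sum]
    refine Finset.sum_eq_zero fun j _ => ?_
    rw [LinearMap.smul_apply, map_smul]
    by_cases hj : o j = true
    · rw [hzero j hj, smul_zero]
    · have : N j = 0 := hF.even j (by simpa using hj)
      rw [this]; simp
  have hDi : ∀ x, D (i x) = 0 := by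
    intro x
    have h1 : D (i x) = D (i (r (i x))) := by rw [hri]
    have h2 : ∀ t, i (r (D t)) = D (i (r t)) := by
      intro t
      rw [hD]
      simp only [LinearMap.sum_apply, LinearMap.smul_apply, map_sum, map_smul, hcx]
    rw [h1, ← h2, hrD, map_zero]
  have hsum : i x = ∑ y, (u.repr (i x) y) • u y := (u.sum_repr (i x)).symm
  have hco : ∀ y, u.repr (i x) y * (2 * (m y : K)) = 0 := by
    intro y
    have h1 : D (i x) = ∑ y, (u.repr (i x) y * (2 * (m y : K))) • u y := by
      conv_lhs => rw [hsum]
      rw [map_sum]
      refine Finset.sum_congr rfl fun y _ => ?_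
      rw [map_smul, hu, smul_smul]
    rw [hDi] at h1
    have h2 := congrArg (fun t => u.repr t y) h1
    simpa [Finsupp.single_apply] using h2.symm
  have hsx : s (i x) = i x := by
    conv_lhs => rw [hsum]
    conv_rhs => rw [hsum]
    rw [map_sum]
    refine Finset.sum_congr rfl fun y _ => ?_
    rw [map_smul, hs]
    rcases mul_eq_zero.1 (hco y) with h | h
    · rw [h]; simp
    · have h0 : (m y : K) = 0 := (mul_eq_zero.1 h).resolve_left two_ne_zero
      have h1 : m y = 0 := by exact_mod_cast h0
      rw [h1]; simp
  rw [hsx, hri]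

end Pool.Agent.W2helper49.SG
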